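import Mathlib
import Pool.Agent.Helper4.CoprimeShift
import Pool.Agent.Helper32.CS.Final

open Finset Filter Pool.Agent.Helper4.CoprimeShift

namespace Pool.Agent.Results.MP_d025d0_nt.Exceptional

/-- A power saving exceptional set: at most `C N / √y` of the `n ≤ N` have
`S_2(n) < (1 - η) e^{-γ} log (log N / log y) - C`. -/
theorem result (η : ℝ) (hη : 0 < η) (hη1 : η < 1) : ∃ C : ℝ, 0 < C ∧ ∀ N y : ℕ, 2 ≤ y → y ≤ N →
    (((Icc 1 N).filter (fun n : ℕ => S2 n <
        (1 - η) * Real.exp (-Real.eulerMascheroniConstant) *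
          Real.log (Real.log N / Real.log y) - C)).card : ℝ) ≤ C * N / Real.sqrt y :=
  Pool.Agent.Helper32.CS.except_final η hη hη1

end Pool.Agent.Results.MP_d025d0_nt.Exceptional
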