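import Mathlib
import Pool.Agent.Helper4.CoprimeShift
import Pool.Agent.Helper4.MeanS1

open Finset Filter Pool.Agent.Helper4.CoprimeShift

namespace Pool.Agent.Results.MP_d025d0_nt.MeanS1

/-- `S_1(n)` does not tend to infinity as `n → ∞`; in fact its mean value over `2 ≤ n ≤ N` stays
bounded. -/
theorem result :
    (∃ C : ℝ, ∀ N : ℕ, ∑ n ∈ Icc 2 N, S1 n ≤ C * N) ∧ ¬ Tendsto S1 atTop atTop := by
  obtain ⟨C, hC⟩ := sum_S1_le
  refine ⟨⟨C, hC⟩, ?_⟩
  intro h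
  -- eventually `S1 n ≥ 2 |C| + 2`
  have h1 := (tendsto_atTop.mp h) (2 * |C| + 2)
  obtain ⟨n₀, hn₀⟩ := eventually_atTop.mp h1
  set N := 2 * (n₀ + 2) with hN
  have h2 := hC N
  have hnn : ∀ n, 0 ≤ S1 n := by
    intro n
    unfold S1
    positivity
  have h3 : ∑ n ∈ Icc (n₀ + 2) N, (2 * |C| + 2) ≤ ∑ n ∈ Icc 2 N, S1 n := by
    calc ∑ n ∈ Icc (n₀ + 2) N, (2 * |C| + 2) ≤ ∑ n ∈ Icc (n₀ + 2) N, S1 n := by
          apply sum_le_sum
          intro n hn
          rw [mem_Icc] at hn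
          exact hn₀ n (by omega)
      _ ≤ ∑ n ∈ Icc 2 N, S1 n := by
          apply sum_le_sum_of_subset_of_nonneg
          · intro n hn
            rw [mem_Icc] at hn ⊢
            omega
          · intros; exact hnn _
  rw [sum_const, Nat.card_Icc, nsmul_eq_mul] at h3
  have h4 : ((N + 1 - (n₀ + 2) : ℕ) : ℝ) = (N : ℝ) / 2 + 1 := by
    have : N + 1 - (n₀ + 2) = (n₀ + 2) + 1 := by omega
    rw [this, hN]; push_cast; ring
  rw [h4] at h3
  have h5 : (0 : ℝ) ≤ N := by positivity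
  have h6 : C ≤ |C| := le_abs_self C
  have h7 : 0 ≤ |C| := abs_nonneg C
  nlinarith [mul_nonneg h5 h7, mul_nonneg h5 (sub_nonneg.mpr h6)]

end Pool.Agent.Results.MP_d025d0_nt.MeanS1
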