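import Mathlib
import Pool.Agent.Helper4.CoprimeShift
import Pool.Agent.Helper32.CS.Final

open Finset Filter Topology Pool.Agent.Helper4.CoprimeShift

namespace Pool.Agent.Results.MP_d025d0_nt.NormalOrder

/-- `S(n)` and `S_2(n)` have normal order `e^{-γ} log log n`: for every `ε > 0` the proportion of
the `n ≤ N` with `|S(n) - e^{-γ} log log n| > ε log log n` tends to `0` as `N → ∞`, and the same
for `S_2`. In particular `S(n)` and `S_2(n)` tend to infinity along a set of density `1`. -/
theorem result (ε : ℝ) (hε : 0 < ε) :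
    Tendsto (fun N : ℕ => (((Icc 1 N).filter (fun n : ℕ =>
        ε * Real.log (Real.log n) <
          |S n - Real.exp (-Real.eulerMascheroniConstant) * Real.log (Real.log n)|)).card : ℝ) / N)
      atTop (𝓝 0) ∧
    Tendsto (fun N : ℕ => (((Icc 1 N).filter (fun n : ℕ =>
        ε * Real.log (Real.log n) <
          |S2 n - Real.exp (-Real.eulerMascheroniConstant) * Real.log (Real.log n)|)).card : ℝ) / N)
      atTop (𝓝 0) :=
  ⟨Pool.Agent.Helper32.CS.normal_S_final ε hε, Pool.Agent.Helper32.CS.normal_S2_final ε hε⟩

end Pool.Agent.Results.MP_d025d0_nt.NormalOrder
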