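import Mathlib
import Pool.Agent.Helper4.CoprimeShift
import Pool.Agent.Helper32.CS.Upper

open Finset Filter Pool.Agent.Helper4.CoprimeShift

namespace Pool.Agent.Results.MP_d025d0_nt.UpperAll

/-- For every `n ≥ 3`, `S(n) ≤ C (1 + log log n)`. -/
theorem result : ∃ C : ℝ, ∀ n : ℕ, 3 ≤ n → S n ≤ C * (1 + Real.log (Real.log n)) := by
  obtain ⟨C, _, h⟩ := Pool.Agent.Helper32.CS.S_le
  exact ⟨C, h⟩

end Pool.Agent.Results.MP_d025d0_nt.UpperAll
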